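import Mathlib

/-! Puzzle pieces cut out by an expanding invariant set of a rational map. -/

open Set Filter Topology

namespace Pool.Agent.MP_255345_an

/-- Stereographic projection of the Riemann sphere onto the unit sphere of `ℂ × ℝ` with the
Euclidean norm. -/
noncomputable def stereo (z : OnePoint ℂ) : WithLp 2 (ℂ × ℝ) :=
  z.elim (WithLp.toLp 2 (0, 1)) fun w =>
    WithLp.toLp 2 (((2 / (‖w‖ ^ 2 + 1) : ℝ) : ℂ) * w, (‖w‖ ^ 2 - 1) / (‖w‖ ^ 2 + 1))

/-- The chordal distance. -/
noncomputable def chord (u v : OnePoint ℂ) : ℝ := dist (stereo u) (stereo v)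

/-- Some iterate of `f` expands chordal distances by a factor `l > 1` on the `δ`-balls centred
at the points of `K`. -/
def Expanding (f : OnePoint ℂ → OnePoint ℂ) (K : Set (OnePoint ℂ)) : Prop :=
  ∃ (N : ℕ) (l δ : ℝ), 0 < N ∧ 1 < l ∧ 0 < δ ∧ ∀ x ∈ K, ∀ u v, chord x u < δ → chord x v < δ →
    l * chord u v ≤ chord (f^[N] u) (f^[N] v)

variable {X : Type} [TopologicalSpace X]

/-- Critical points: `f` is injective on no neighbourhood of `c`. -/
def IsCrit (f : X → X) (c : X) : Prop := ∀ U ∈ 𝓝 c, ¬ InjOn f U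

/-- The piece of depth `n` of `x`: the component of `x` in the complement of `f⁻ⁿ K`. -/
def piece (f : X → X) (K : Set X) (n : ℕ) (x : X) : Set X :=
  connectedComponentIn (f^[n] ⁻¹' K)ᶜ x

/-- The orbit of `a` misses `K`, and for some `B` and infinitely many `N` at most `B` of the
pieces of depth `N - i` of the points `fⁱ a`, `i < N`, contain a critical point. -/
def Good (f : X → X) (K : Set X) (a : X) : Prop :=
  (∀ n, f^[n] a ∉ K) ∧ ∃ B : ℕ, ∃ᶠ N in atTop,
    {i | i < N ∧ ∃ c ∈ piece f K (N - i) (f^[i] a), IsCrit f c}.ncard ≤ B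

/-- The omega-limit set of `x`. -/
def om (f : X → X) (x : X) : Set X := omegaLimit atTop (fun (n : ℕ) (y : X) => f^[n] y) {x}

end Pool.Agent.MP_255345_an
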