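import Pool.Agent.MP_255345_an.Defs

/-! Orbits that enter all pieces of a point. -/

namespace Pool.Agent.MP_255345_an

variable {X : Type} [TopologicalSpace X]

/-- For every depth `N` the orbit of `x` enters the piece of depth `N` of `a`. -/
def Visits (f : X → X) (K : Set X) (x a : X) : Prop :=
  ∀ N, ∃ m, f^[m] x ∈ piece f K N a

/-- Persistently recurrent critical points: the critical value `f c` visits `c`, and `c` visits
no good point. -/
def Pers (f : X → X) (K : Set X) (c : X) : Prop :=
  IsCrit f c ∧ Visits f K (f c) c ∧ ∀ a, Visits f K c a → ¬ Good f K a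

end Pool.Agent.MP_255345_an
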